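import Pool.Agent.DPF.Stmts

/-!
# DGB, MNB (squad DPF)
-/

set_option autoImplicit false

namespace Pool.Agent.DPF.H17

open Finset Pool.Agent.DPS

theorem ini_succ {n : ℕ} (c : Fin n) : ini n (c.val + 1) = insert c (ini n c.val) := by
  ext x
  rw [ini, ini, mem_filter, mem_insert, mem_filter]
  constructor
  · rintro ⟨-, h⟩
    rcases Nat.lt_succ_iff_lt_or_eq.1 h with h1 | h1
    · exact Or.inr ⟨mem_univ _, h1⟩
    · exact Or.inl (Fin.ext h1)
  · rintro (h | ⟨-, h⟩)
    · exact ⟨mem_univ _, by rw [h]; exact Nat.lt_succ_self _⟩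
    · exact ⟨mem_univ _, Nat.lt_succ_of_lt h⟩

theorem notMem_ini {n : ℕ} (c : Fin n) : c ∉ ini n c.val := by
  rw [ini, mem_filter]
  rintro ⟨-, h⟩
  exact lt_irrefl _ h

theorem card_fib {n k L : ℕ} (cnt : CNTStmt) (hL : L ≤ n) (𝒜 : Finset (Finset (Fin n)))
    (B : Finset (Fin n)) (h𝒜 : ∀ E ∈ 𝒜, E ⊆ ini n L) (hB : Disjoint B (ini n L)) :
    (𝒜.biUnion fun E => (powersetCard k (univ : Finset (Fin n))).filter
      fun K => K ∩ ini n L = E ∧ B ⊆ K).card = ∑ E ∈ 𝒜, mm (n - L) k B.card E.card := by
  rw [card_biUnion]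
  · exact Finset.sum_congr rfl fun E hE => cnt n k L E B hL (h𝒜 E hE) hB
  · intro E _ E' _ hne
    rw [Function.onFun, Finset.disjoint_left]
    intro K hK hK'
    rw [mem_filter] at hK hK'
    exact hne (hK.2.1.symm.trans hK'.2.1)

/-- **DGB** -/
theorem dgb (cnt : CNTStmt) : DGBStmt := by
  classical
  intro n k t c 𝒯 hG A B hA hB
  have hLn : c.val ≤ n := c.2.le
  have hcn := notMem_ini c
  have hcB : Disjoint (insert c B) (ini n c.val) := by
    rw [disjoint_insert_left]
    exact ⟨hcn, hB⟩
  have hset : (fam k (c.val + 1) 𝒯).filter (fun F => A ∪ B ⊆ F) =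
      ((ov (AA c 𝒯) A).biUnion fun E => (powersetCard k (univ : Finset (Fin n))).filter
        fun K => K ∩ ini n c.val = E ∧ B ⊆ K) ∪
      ((ov (XX c 𝒯) A).biUnion fun E => (powersetCard k (univ : Finset (Fin n))).filter
        fun K => K ∩ ini n c.val = E ∧ insert c B ⊆ K) := by
    ext K
    rw [mem_filter, fam, mem_filter, mem_union, mem_biUnion, mem_biUnion, ini_succ]
    constructor
    · rintro ⟨⟨hK, hT⟩, hAB⟩
      have hAK : A ⊆ K := subset_union_left.trans hAB
      have hBK : B ⊆ K := subset_union_right.trans hAB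
      have hAE : A ⊆ K ∩ ini n c.val := subset_inter hAK hA
      by_cases hE : K ∩ ini n c.val ∈ 𝒯
      · left
        refine ⟨K ∩ ini n c.val, ?_, ?_⟩
        · rw [ov, mem_filter, AA, mem_filter]
          exact ⟨⟨hE, inter_subset_right⟩, hAE⟩
        · rw [mem_filter]
          exact ⟨hK, rfl, hBK⟩
      · right
        have hcK : c ∈ K := by
          by_contra hcK
          rw [inter_insert_of_notMem hcK] at hT
          exact hE hT
        rw [inter_insert_of_mem hcK] at hT
        refine ⟨K ∩ ini n c.val, ?_, ?_⟩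
        · rw [ov, mem_filter, XX, mem_filter, mem_powerset]
          exact ⟨⟨inter_subset_right, hT, hE⟩, hAE⟩
        · rw [mem_filter]
          exact ⟨hK, rfl, insert_subset hcK hBK⟩
    · rintro (⟨E, hE, hK⟩ | ⟨E, hE, hK⟩)
      · rw [ov, mem_filter, AA, mem_filter] at hE
        rw [mem_filter] at hK
        obtain ⟨hK1, hK2, hK3⟩ := hK
        obtain ⟨⟨hE1, hE2⟩, hE3⟩ := hE
        have hEK : E ⊆ K := by rw [← hK2]; exact inter_subset_left
        refine ⟨⟨hK1, ?_⟩, union_subset (hE3.trans hEK) hK3⟩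
        by_cases hcK : c ∈ K
        · rw [inter_insert_of_mem hcK, hK2]
          refine hG.up E hE1 _ (subset_insert _ _) ?_
          rw [ini_succ]
          exact insert_subset_insert _ hE2
        · rw [inter_insert_of_notMem hcK, hK2]
          exact hE1
      · rw [ov, mem_filter, XX, mem_filter, mem_powerset] at hE
        rw [mem_filter] at hK
        obtain ⟨hK1, hK2, hK3⟩ := hK
        obtain ⟨⟨hE1, hE2, hE3⟩, hE4⟩ := hE
        have hEK : E ⊆ K := by rw [← hK2]; exact inter_subset_left
        have hcK : c ∈ K := hK3 (mem_insert_self _ _)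
        refine ⟨⟨hK1, ?_⟩, union_subset (hE4.trans hEK) ((subset_insert _ _).trans hK3)⟩
        rw [inter_insert_of_mem hcK, hK2]
        exact hE2
  have hdis : Disjoint
      ((ov (AA c 𝒯) A).biUnion fun E => (powersetCard k (univ : Finset (Fin n))).filter
        fun K => K ∩ ini n c.val = E ∧ B ⊆ K)
      ((ov (XX c 𝒯) A).biUnion fun E => (powersetCard k (univ : Finset (Fin n))).filter
        fun K => K ∩ ini n c.val = E ∧ insert c B ⊆ K) := by
    rw [Finset.disjoint_left]
    intro K h1 h2
    rw [mem_biUnion] at h1 h2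
    obtain ⟨E, hE, hK⟩ := h1
    obtain ⟨E', hE', hK'⟩ := h2
    rw [mem_filter] at hK hK'
    have hEE : E = E' := hK.2.1.symm.trans hK'.2.1
    rw [ov, mem_filter, AA, mem_filter] at hE
    rw [ov, mem_filter, XX, mem_filter] at hE'
    exact hE'.1.2.2 (hEE ▸ hE.1.1)
  have hcard : degree (fam k (c.val + 1) 𝒯) (A ∪ B) =
      ∑ E ∈ ov (AA c 𝒯) A, mm (n - c.val) k B.card E.card +
        ∑ E ∈ ov (XX c 𝒯) A, mm (n - c.val) k (insert c B).card E.card := by
    rw [degree, hset, card_union_of_disjoint hdis, card_fib cnt hLn _ B _ hB,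
      card_fib cnt hLn _ (insert c B) _ hcB]
    · intro E hE
      rw [ov, mem_filter, XX, mem_filter, mem_powerset] at hE
      exact hE.1.1
    · intro E hE
      rw [ov, mem_filter, AA, mem_filter] at hE
      exact hE.1.2
  rw [hcard]
  push_cast
  by_cases hc : c ∈ B
  · rw [if_pos hc, d1, sm, sm, insert_eq_self.2 hc]
  · rw [if_neg hc, d0, sm, sm, card_insert_of_notMem hc]

theorem q_conv (u v d : ℝ) (hd : 0 ≤ d) :
    2 * (max (u + d) 0 - max u 0) * (v - u) ≤
      (max (v + d) 0) ^ 2 - (max v 0) ^ 2 - ((max (u + d) 0) ^ 2 - (max u 0) ^ 2) := by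
  rcases le_total u 0 with hu | hu
  · rcases le_total (u + d) 0 with hu' | hu'
    · rw [max_eq_right hu, max_eq_right hu']
      rcases le_total v 0 with hv | hv
      · rw [max_eq_right hv]
        have := sq_nonneg (max (v + d) 0)
        linarith
      · rw [max_eq_left hv, max_eq_left (by linarith : 0 ≤ v + d)]
        nlinarith
    · rw [max_eq_right hu, max_eq_left hu']
      rcases le_total v 0 with hv | hv
      · rw [max_eq_right hv]
        rcases le_total (v + d) 0 with hv' | hv'
        · rw [max_eq_right hv']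
          nlinarith
        · rw [max_eq_left hv']
          nlinarith [sq_nonneg (v - u)]
      · rw [max_eq_left hv, max_eq_left (by linarith : 0 ≤ v + d)]
        nlinarith [mul_nonneg (neg_nonneg.2 hu) hv, sq_nonneg u]
  · rw [max_eq_left hu, max_eq_left (by linarith : 0 ≤ u + d)]
    rcases le_total v 0 with hv | hv
    · rw [max_eq_right hv]
      rcases le_total (v + d) 0 with hv' | hv'
      · rw [max_eq_right hv']
        nlinarith
      · rw [max_eq_left hv']
        nlinarith [sq_nonneg v]
    · rw [max_eq_left hv, max_eq_left (by linarith : 0 ≤ v + d)]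
      nlinarith

/-- **MNB** -/
theorem mnb : MNBStmt := by
  intro ι s w g θ x x' hw hw1 hg hx
  have hd : 0 ≤ x' - x := by linarith
  have key : ∀ i ∈ s, w i * (ph θ (x + g i) - ph θ x) +
      2 * (max (x' - θ) 0 - max (x - θ) 0) * (w i * g i) ≤
      w i * (ph θ (x' + g i) - ph θ x') := by
    intro i hi
    have h := q_conv (x - θ) (x + g i - θ) (x' - x) hd
    rw [show x - θ + (x' - x) = x' - θ by ring, show x + g i - θ + (x' - x) = x' + g i - θ by ring,
      show x + g i - θ - (x - θ) = g i by ring] at h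
    have h2 := mul_le_mul_of_nonneg_left h (hw i hi)
    simp only [ph]
    linarith
  have h3 := Finset.sum_le_sum key
  rw [Finset.sum_add_distrib, ← Finset.mul_sum] at h3
  have h4 : 0 ≤ 2 * (max (x' - θ) 0 - max (x - θ) 0) * ∑ i ∈ s, w i * g i := by
    refine mul_nonneg ?_ hg
    have : max (x - θ) 0 ≤ max (x' - θ) 0 := max_le_max (by linarith) le_rfl
    linarith
  linarith

end Pool.Agent.DPF.H17
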